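import Pool.Agent.H15.UB.Targets

/-!
# Board `ubs_modules`, row GORN: duality, few generators are not killed by the power `m ^ s`
-/

open Module

namespace Pool.Agent.H6.UB

open Pool.Agent.H15.UB Pool.Agent.H15.Defect

universe u

section

variable {k : Type u} [Field k] {A : Type u} [CommRing A] [Algebra k A]

/-- the functional `b ↦ (a ↦ f (a b))` -/
noncomputable def bf (f : A →ₗ[k] k) : A →ₗ[k] Dual k A where
  toFun b := f.comp ((LinearMap.mul k A).flip b)
  map_add' b c := by
    ext a
    simp
  map_smul' t b := by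
    ext a
    simp

theorem bf_apply (f : A →ₗ[k] k) (a b : A) : bf f b a = f (a * b) := rfl

theorem mem_ann_iff (f : A →ₗ[k] k) (hf : ∀ a : A, a ≠ 0 → ∃ b : A, f (a * b) ≠ 0)
    (I : Ideal A) (b : A) : b ∈ I.annihilator ↔ ∀ a ∈ I, f (a * b) = 0 := by
  rw [Submodule.mem_annihilator]
  constructor
  · intro h a ha
    have := h a ha
    rw [smul_eq_mul] at this
    rw [mul_comm, this, map_zero]
  · intro h a ha
    by_contra hne
    obtain ⟨c, hc⟩ := hf _ hne
    apply hc
    have := h (a * c) (I.mul_mem_right c ha)
    rw [smul_eq_mul, show b * a * c = a * c * b by ring]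
    exact this

/-- duality: dimension of the annihilator -/
theorem finrank_ann [Module.Finite k A] (f : A →ₗ[k] k)
    (hf : ∀ a : A, a ≠ 0 → ∃ b : A, f (a * b) ≠ 0) (I : Ideal A) :
    fi k I + fi k I.annihilator = finrank k A := by
  have hinj : Function.Injective (bf f) := by
    rw [injective_iff_map_eq_zero]
    intro b hb
    by_contra hne
    obtain ⟨c, hc⟩ := hf b hne
    apply hc
    rw [mul_comm, ← bf_apply, hb]
    rfl
  have hdim : finrank k A = finrank k (Dual k A) := (Subspace.dual_finrank_eq).symm
  let e : A ≃ₗ[k] Dual k A := LinearEquiv.ofInjectiveOfFinrankEq (bf f) hinj hdim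
  have he : ∀ b, e b = bf f b := fun b => rfl
  have h1 := Subspace.finrank_add_finrank_dualAnnihilator_eq (I.restrictScalars k)
  have h2 : (I.annihilator.restrictScalars k) =
      (I.restrictScalars k).dualAnnihilator.comap (e : A →ₗ[k] Dual k A) := by
    ext b
    rw [Submodule.restrictScalars_mem, mem_ann_iff f hf, Submodule.mem_comap,
      Submodule.mem_dualAnnihilator]
    constructor
    · intro h a ha
      exact h a ha
    · intro h a ha
      exact h a ha
  have h3 : fi k I.annihilator = finrank k (I.restrictScalars k).dualAnnihilator := by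
    unfold fi
    rw [h2]
    exact LinearEquiv.finrank_eq (e.ofSubmodule' _)
  unfold fi at h3 ⊢
  rw [h3, h1]

theorem fi_le [Module.Finite k A] {I J : Ideal A} (h : I ≤ J) : fi k I ≤ fi k J :=
  Submodule.finrank_mono (fun _ ha => h ha)

theorem ann_ann [Module.Finite k A] (f : A →ₗ[k] k)
    (hf : ∀ a : A, a ≠ 0 → ∃ b : A, f (a * b) ≠ 0) (I : Ideal A) :
    I.annihilator.annihilator = I := by
  have h1 := finrank_ann f hf I
  have h2 := finrank_ann f hf I.annihilator
  have h3 : I ≤ I.annihilator.annihilator := by
    intro a ha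
    rw [Submodule.mem_annihilator]
    intro b hb
    rw [Submodule.mem_annihilator] at hb
    have := hb a ha
    rw [smul_eq_mul] at this ⊢
    rw [mul_comm]
    exact this
  have h4 : I.restrictScalars k = I.annihilator.annihilator.restrictScalars k :=
    Submodule.eq_of_le_of_finrank_eq (fun a ha => h3 ha) (by unfold fi at h1 h2; omega)
  exact (Submodule.restrictScalars_injective k A A h4).symm

theorem finrank_quot_max [IsAlgClosed k] [Module.Finite k A] (m : Ideal A) [m.IsMaximal] :
    fi k m + 1 = finrank k A := by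
  let _ : Field (A ⧸ m) := Ideal.Quotient.field m
  have h1 : Function.Bijective (algebraMap k (A ⧸ m)) :=
    IsAlgClosed.algebraMap_bijective_of_isIntegral
  have h2 : finrank k (A ⧸ m) = 1 := by
    have e : k ≃ₐ[k] (A ⧸ m) := AlgEquiv.ofBijective (Algebra.ofId k (A ⧸ m)) h1
    rw [← e.toLinearEquiv.finrank_eq, finrank_self]
  have h3 := Submodule.finrank_quotient_add_finrank (m.restrictScalars k)
  have h4 : finrank k (A ⧸ m.restrictScalars k) = finrank k (A ⧸ m) := rfl
  unfold fi
  omega

end

theorem pf_GORN : T_GORN.{u} := by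
  intro k _ _ A _ _ _ _ f s h x hf hx hxm hh
  set m := IsLocalRing.maximalIdeal A with hm
  -- duality for `J`
  set J : Ideal A := (m ^ s).annihilator ⊔ m ^ 2 with hJ
  set N : Ideal A := J.annihilator with hN
  have hdual : fi k J + fi k N = finrank k A := finrank_ann f hf J
  have hNs : N ≤ m ^ s := by
    rw [← ann_ann f hf (m ^ s)]
    exact Submodule.annihilator_mono le_sup_left
  have hN2 : ∀ b ∈ N, ∀ a ∈ m ^ 2, b * a = 0 := by
    intro b hb a ha
    rw [hN, Submodule.mem_annihilator] at hb
    exact hb a ((le_sup_right : m ^ 2 ≤ J) ha)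
  -- the annihilator of `m` is a line
  have hann : fi k m.annihilator = 1 := by
    have h1 := finrank_ann f hf m
    have h2 := finrank_quot_max (k := k) m
    omega
  -- multiplication by `x`
  let μ : A →ₗ[k] A := LinearMap.mulLeft k x
  have hμ : ∀ a, μ a = x * a := fun a => rfl
  -- on `m ^ s`
  have hker : ∀ P : Submodule k A,
      finrank k (P.map μ) + finrank k (P ⊓ LinearMap.ker μ : Submodule k A) = finrank k P := by
    intro P
    have h1 := LinearMap.finrank_range_add_finrank_ker (μ.domRestrict P)
    have h2 : LinearMap.range (μ.domRestrict P) = P.map μ := by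
      rw [LinearMap.range_domRestrict]
    have h3 : finrank k (LinearMap.ker (μ.domRestrict P)) =
        finrank k (P ⊓ LinearMap.ker μ : Submodule k A) := by
      have h4 : (LinearMap.ker (μ.domRestrict P)).map P.subtype = P ⊓ LinearMap.ker μ := by
        ext a
        constructor
        · rintro ⟨b, hb, rfl⟩
          exact ⟨b.2, hb⟩
        · rintro ⟨h5, h6⟩
          exact ⟨⟨a, h5⟩, h6, rfl⟩
      rw [← h4]
      exact ((Submodule.equivMapOfInjective P.subtype P.injective_subtype _).finrank_eq)
    rw [h2, h3] at h1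
    exact h1
  have hms : ((m ^ s).restrictScalars k).map μ = (m ^ (s + 1)).restrictScalars k := by
    ext a
    rw [Submodule.restrictScalars_mem, hxm, Ideal.mem_span_singleton_mul]
    constructor
    · rintro ⟨b, hb, rfl⟩
      exact ⟨b, hb, rfl⟩
    · rintro ⟨b, hb, rfl⟩
      exact ⟨b, hb, rfl⟩
  have h1 := hker ((m ^ s).restrictScalars k)
  rw [hms] at h1
  have h2 := hker (N.restrictScalars k)
  have h3 : finrank k (N.restrictScalars k ⊓ LinearMap.ker μ : Submodule k A) ≤
      finrank k ((m ^ s).restrictScalars k ⊓ LinearMap.ker μ : Submodule k A) :=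
    Submodule.finrank_mono (inf_le_inf_right _ fun a ha => hNs ha)
  have h4 : finrank k ((N.restrictScalars k).map μ) ≤ fi k m.annihilator := by
    refine Submodule.finrank_mono ?_
    rintro _ ⟨b, hb, rfl⟩
    rw [Submodule.restrictScalars_mem, Submodule.mem_annihilator]
    intro a ha
    rw [hμ, smul_eq_mul, show x * b * a = b * (x * a) by ring]
    exact hN2 b hb _ (by rw [pow_two]; exact Ideal.mul_mem_mul hx ha)
  unfold fi at hdual hann hh h4 ⊢
  omega

end Pool.Agent.H6.UB
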